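import Pool.Agent.helper71.DSW.SpecC

/-!
# Project dsw, row TBL: the two point block
-/

set_option autoImplicit false
set_option linter.unusedVariables false

namespace Pool.Agent.DSW

open Equiv Finset Function Pool.Agent.helper48.PP
open scoped ENNReal Classical

noncomputable section

theorem TBL_ineq (p : ℝ) (h0 : 0 ≤ p) (h1 : p ≤ 1) (n : ℕ) :
    1 - n * p + (n.choose 2 : ℝ) * p ^ 2 - (n.choose 3 : ℝ) * p ^ 3 ≤ (1 - p) ^ n := by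
  induction n with
  | zero => simp
  | succ n ih =>
    have e2 : ((n + 1).choose 2 : ℝ) = n + n.choose 2 := by
      rw [Nat.choose_succ_succ' n 1, Nat.choose_one_right]
      push_cast
      ring
    have e3 : ((n + 1).choose 3 : ℝ) = n.choose 2 + n.choose 3 := by
      rw [Nat.choose_succ_succ' n 2]
      push_cast
      ring
    rw [e2, e3, pow_succ (1 - p) n]
    have h2 := mul_le_mul_of_nonneg_right ih (sub_nonneg.2 h1)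
    have h3 : 0 ≤ (n.choose 3 : ℝ) * p ^ 4 := by positivity
    push_cast
    linarith

theorem TBL_ex_add {ι : Type} [Fintype ι] (H : ℕ) (f g : (ι → ℕ) → ℝ≥0∞) :
    Ex H (fun x => f x + g x) = Ex H f + Ex H g := by
  unfold Ex
  rw [← ENNReal.tsum_add]
  exact tsum_congr fun x => mul_add _ _ _

theorem TBL_ex_mul {ι : Type} [Fintype ι] (H : ℕ) (c : ℝ≥0∞) (f : (ι → ℕ) → ℝ≥0∞) :
    Ex H (fun x => c * f x) = c * Ex H f := by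
  unfold Ex
  rw [← ENNReal.tsum_mul_left]
  exact tsum_congr fun x => by ring

theorem TBL_ex_mono {ι : Type} [Fintype ι] (H : ℕ) (f g : (ι → ℕ) → ℝ≥0∞)
    (h : ∀ x, f x ≤ g x) : Ex H f ≤ Ex H g :=
  ENNReal.tsum_le_tsum fun x => mul_le_mul_right (h x) _

/-- monomials -/
def TBL_mon (e x : Fin 5 → ℕ) : ℝ≥0∞ := ∏ i, (x i : ℝ≥0∞) ^ e i

/-- moments -/
def TBL_M (H k : ℕ) : ℝ≥0∞ := ∑' j : ℕ, wt H j * (j : ℝ≥0∞) ^ k

theorem TBL_ex_mon (hPRD : PRD_stmt) (H : ℕ) (e : Fin 5 → ℕ) :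
    Ex H (TBL_mon e) = ∏ i, TBL_M H (e i) := by
  unfold Ex TBL_mon TBL_M
  rw [← hPRD (Fin 5) (fun i j => wt H j * (j : ℝ≥0∞) ^ e i)]
  exact tsum_congr fun x => by rw [← Finset.prod_mul_distrib]

/-- polynomials -/
def TBL_pol (l : List (ℕ × (Fin 5 → ℕ))) (x : Fin 5 → ℕ) : ℝ≥0∞ :=
  (l.map fun q => (q.1 : ℝ≥0∞) * TBL_mon q.2 x).sum

/-- expectations -/
def TBL_exp (H : ℕ) (l : List (ℕ × (Fin 5 → ℕ))) : ℝ≥0∞ :=
  (l.map fun q => (q.1 : ℝ≥0∞) * ∏ i, TBL_M H (q.2 i)).sum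

theorem TBL_ex_pol (hPRD : PRD_stmt) (H : ℕ) (l : List (ℕ × (Fin 5 → ℕ))) :
    Ex H (TBL_pol l) = TBL_exp H l := by
  induction l with
  | nil =>
    unfold TBL_pol TBL_exp Ex
    simp
  | cons q l ih =>
    have h1 : TBL_pol (q :: l) = fun x => (q.1 : ℝ≥0∞) * TBL_mon q.2 x + TBL_pol l x := by
      funext x
      unfold TBL_pol
      rw [List.map_cons, List.sum_cons]
    have h2 : TBL_exp H (q :: l) = (q.1 : ℝ≥0∞) * ∏ i, TBL_M H (q.2 i) + TBL_exp H l := by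
      unfold TBL_exp
      rw [List.map_cons, List.sum_cons]
    rw [h1, h2, TBL_ex_add, TBL_ex_mul, TBL_ex_mon hPRD, ih]

/-- the exponent -/
def TBL_n (x : Fin 5 → ℕ) : ℕ := x 0 * (x 2 + x 3) + x 1 * (x 3 + x 4)

/-- the polynomial of the exponent -/
def TBL_l1 : List (ℕ × (Fin 5 → ℕ)) :=
  [(1, ![1, 0, 1, 0, 0]), (1, ![1, 0, 0, 1, 0]), (1, ![0, 1, 0, 1, 0]), (1, ![0, 1, 0, 0, 1])]

/-- the polynomial of the square of the exponent -/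
def TBL_l2 : List (ℕ × (Fin 5 → ℕ)) :=
  [(1, ![2, 0, 2, 0, 0]), (2, ![2, 0, 1, 1, 0]), (1, ![2, 0, 0, 2, 0]),
   (2, ![1, 1, 1, 1, 0]), (2, ![1, 1, 1, 0, 1]), (2, ![1, 1, 0, 2, 0]), (2, ![1, 1, 0, 1, 1]),
   (1, ![0, 2, 0, 2, 0]), (2, ![0, 2, 0, 1, 1]), (1, ![0, 2, 0, 0, 2])]

/-- a bound for the third power of the exponent -/
def TBL_l3 : List (ℕ × (Fin 5 → ℕ)) :=
  [(4, ![3, 0, 3, 0, 0]), (12, ![3, 0, 2, 1, 0]), (12, ![3, 0, 1, 2, 0]), (4, ![3, 0, 0, 3, 0]),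
   (4, ![0, 3, 0, 3, 0]), (12, ![0, 3, 0, 2, 1]), (12, ![0, 3, 0, 1, 2]), (4, ![0, 3, 0, 0, 3])]

theorem TBL_p1 (x : Fin 5 → ℕ) : (TBL_n x : ℝ≥0∞) = TBL_pol TBL_l1 x := by
  unfold TBL_n TBL_pol TBL_l1 TBL_mon
  simp [Fin.prod_univ_five]
  ring

theorem TBL_p2 (x : Fin 5 → ℕ) : (TBL_n x : ℝ≥0∞) ^ 2 = TBL_pol TBL_l2 x := by
  unfold TBL_n TBL_pol TBL_l2 TBL_mon
  simp [Fin.prod_univ_five]
  ring

theorem TBL_p3 (x : Fin 5 → ℕ) : ((4 * ((x 0 * (x 2 + x 3)) ^ 3 + (x 1 * (x 3 + x 4)) ^ 3) : ℕ) :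
    ℝ≥0∞) = TBL_pol TBL_l3 x := by
  unfold TBL_pol TBL_l3 TBL_mon
  simp [Fin.prod_univ_five]
  ring

theorem TBL_cube (a b : ℕ) : (a + b) ^ 3 ≤ 4 * (a ^ 3 + b ^ 3) := by
  zify
  nlinarith [mul_nonneg (add_nonneg (Int.natCast_nonneg a) (Int.natCast_nonneg b))
    (sq_nonneg ((a : ℤ) - b))]

theorem TBL_m (hGEO : GEO_stmt) (H : ℕ) (hH : 1 ≤ H) :
    TBL_M H 0 = 1 ∧ TBL_M H 1 = H ∧ TBL_M H 2 = 2 * (H : ℝ≥0∞) ^ 2 + H ∧
      TBL_M H 3 = 6 * (H : ℝ≥0∞) ^ 3 + 6 * (H : ℝ≥0∞) ^ 2 + H := by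
  obtain ⟨h0, h1, h2, h3, -⟩ := hGEO H hH
  unfold TBL_M
  refine ⟨?_, ?_, h2, h3⟩
  · simpa using h0
  · simpa using h1

theorem TBL_e1 (hPRD : PRD_stmt) (hGEO : GEO_stmt) (H : ℕ) (hH : 1 ≤ H) :
    Ex H (fun x => (TBL_n x : ℝ≥0∞)) = 4 * (H : ℝ≥0∞) ^ 2 := by
  obtain ⟨m0, m1, m2, m3⟩ := TBL_m hGEO H hH
  rw [show (fun x => (TBL_n x : ℝ≥0∞)) = TBL_pol TBL_l1 from funext TBL_p1, TBL_ex_pol hPRD]
  unfold TBL_exp TBL_l1
  simp [Fin.prod_univ_five, m0, m1]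
  ring

theorem TBL_e2 (hPRD : PRD_stmt) (hGEO : GEO_stmt) (H : ℕ) (hH : 1 ≤ H) :
    Ex H (fun x => (TBL_n x : ℝ≥0∞) ^ 2) =
      34 * (H : ℝ≥0∞) ^ 4 + 22 * (H : ℝ≥0∞) ^ 3 + 4 * (H : ℝ≥0∞) ^ 2 := by
  obtain ⟨m0, m1, m2, m3⟩ := TBL_m hGEO H hH
  rw [show (fun x => (TBL_n x : ℝ≥0∞) ^ 2) = TBL_pol TBL_l2 from funext TBL_p2, TBL_ex_pol hPRD]
  unfold TBL_exp TBL_l2
  simp [Fin.prod_univ_five, m0, m1, m2]
  ring

theorem TBL_e3 (hPRD : PRD_stmt) (hGEO : GEO_stmt) (H : ℕ) (hH : 1 ≤ H) :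
    Ex H (fun x => ((TBL_n x ^ 3 : ℕ) : ℝ≥0∞)) ≤ 4576 * (H : ℝ≥0∞) ^ 6 := by
  obtain ⟨m0, m1, m2, m3⟩ := TBL_m hGEO H hH
  have h1 : Ex H (fun x => ((TBL_n x ^ 3 : ℕ) : ℝ≥0∞)) ≤ Ex H (TBL_pol TBL_l3) := by
    apply TBL_ex_mono
    intro x
    rw [← TBL_p3]
    exact Nat.cast_le.2 (TBL_cube _ _)
  refine h1.trans ?_
  rw [TBL_ex_pol hPRD]
  have h2 : TBL_exp H TBL_l3 = ((8 * (6 * H ^ 3 + 6 * H ^ 2 + H) *
      (24 * H ^ 3 + 18 * H ^ 2 + 2 * H) : ℕ) : ℝ≥0∞) := by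
    unfold TBL_exp TBL_l3
    simp [Fin.prod_univ_five, m0, m1, m2, m3]
    ring
  rw [h2]
  have h3 : 8 * (6 * H ^ 3 + 6 * H ^ 2 + H) * (24 * H ^ 3 + 18 * H ^ 2 + 2 * H) ≤
      4576 * H ^ 6 := by
    have h4 : H ≤ H ^ 3 := Nat.le_self_pow (by norm_num) H
    have h5 : H ^ 2 ≤ H ^ 3 := Nat.pow_le_pow_right hH (by norm_num)
    have h6 : 6 * H ^ 3 + 6 * H ^ 2 + H ≤ 13 * H ^ 3 := by omega
    have h7 : 24 * H ^ 3 + 18 * H ^ 2 + 2 * H ≤ 44 * H ^ 3 := by omega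
    calc 8 * (6 * H ^ 3 + 6 * H ^ 2 + H) * (24 * H ^ 3 + 18 * H ^ 2 + 2 * H) ≤
        8 * (13 * H ^ 3) * (44 * H ^ 3) :=
          Nat.mul_le_mul (Nat.mul_le_mul le_rfl h6) h7
      _ = 4576 * H ^ 6 := by ring
  calc ((8 * (6 * H ^ 3 + 6 * H ^ 2 + H) *
      (24 * H ^ 3 + 18 * H ^ 2 + 2 * H) : ℕ) : ℝ≥0∞) ≤ ((4576 * H ^ 6 : ℕ) : ℝ≥0∞) :=
        Nat.cast_le.2 h3
    _ = 4576 * (H : ℝ≥0∞) ^ 6 := by push_cast; ring

theorem TBL_c2 (hPRD : PRD_stmt) (hGEO : GEO_stmt) (H : ℕ) (hH : 1 ≤ H) :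
    17 * (H : ℝ≥0∞) ^ 4 ≤ Ex H (fun x => ((TBL_n x).choose 2 : ℝ≥0∞)) := by
  have h1 : 2 * Ex H (fun x => ((TBL_n x).choose 2 : ℝ≥0∞)) + 4 * (H : ℝ≥0∞) ^ 2 =
      34 * (H : ℝ≥0∞) ^ 4 + 22 * (H : ℝ≥0∞) ^ 3 + 4 * (H : ℝ≥0∞) ^ 2 := by
    rw [← TBL_e1 hPRD hGEO H hH, ← TBL_ex_mul, ← TBL_ex_add, TBL_e1 hPRD hGEO H hH,
      ← TBL_e2 hPRD hGEO H hH]
    congr 1
    funext x
    have h2 : 2 * (TBL_n x).choose 2 + TBL_n x = TBL_n x ^ 2 := by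
      generalize TBL_n x = n
      rw [Nat.choose_two_right, Nat.mul_div_cancel' (Nat.even_mul_pred_self n).two_dvd]
      rcases Nat.eq_zero_or_pos n with rfl | h
      · rfl
      · obtain ⟨m, rfl⟩ := Nat.exists_eq_add_of_le h
        rw [Nat.add_sub_cancel_left]
        ring
    exact_mod_cast h2
  have h3 : 4 * (H : ℝ≥0∞) ^ 2 ≠ ⊤ := by
    have : 4 * (H : ℝ≥0∞) ^ 2 = ((4 * H ^ 2 : ℕ) : ℝ≥0∞) := by push_cast; ring
    rw [this]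
    exact ENNReal.natCast_ne_top _
  have h4 : 2 * Ex H (fun x => ((TBL_n x).choose 2 : ℝ≥0∞)) =
      34 * (H : ℝ≥0∞) ^ 4 + 22 * (H : ℝ≥0∞) ^ 3 := (ENNReal.add_left_inj h3).1 h1
  have h5 : 2 * (17 * (H : ℝ≥0∞) ^ 4) ≤ 2 * Ex H (fun x => ((TBL_n x).choose 2 : ℝ≥0∞)) := by
    rw [h4]
    calc 2 * (17 * (H : ℝ≥0∞) ^ 4) = 34 * (H : ℝ≥0∞) ^ 4 := by ring
      _ ≤ _ := le_self_add
  exact (ENNReal.mul_le_mul_iff_right (by norm_num) (by norm_num)).1 h5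

theorem TBL_c3 (hPRD : PRD_stmt) (hGEO : GEO_stmt) (H : ℕ) (hH : 1 ≤ H) :
    Ex H (fun x => ((TBL_n x).choose 3 : ℝ≥0∞)) ≤ 763 * (H : ℝ≥0∞) ^ 6 := by
  have h1 : 6 * Ex H (fun x => ((TBL_n x).choose 3 : ℝ≥0∞)) ≤ 4576 * (H : ℝ≥0∞) ^ 6 := by
    rw [← TBL_ex_mul]
    refine (TBL_ex_mono H _ _ ?_).trans (TBL_e3 hPRD hGEO H hH)
    intro x
    have h2 : 6 * (TBL_n x).choose 3 ≤ TBL_n x ^ 3 := by
      have h3 := Nat.descFactorial_eq_factorial_mul_choose (TBL_n x) 3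
      have h4 : Nat.factorial 3 = 6 := by decide
      rw [h4] at h3
      rw [← h3]
      exact Nat.descFactorial_le_pow _ _
    exact_mod_cast h2
  have h5 : 6 * Ex H (fun x => ((TBL_n x).choose 3 : ℝ≥0∞)) ≤ 6 * (763 * (H : ℝ≥0∞) ^ 6) := by
    refine h1.trans ?_
    calc 4576 * (H : ℝ≥0∞) ^ 6 ≤ 4576 * (H : ℝ≥0∞) ^ 6 + 2 * (H : ℝ≥0∞) ^ 6 := le_self_add
      _ = 6 * (763 * (H : ℝ≥0∞) ^ 6) := by ring
  exact (ENNReal.mul_le_mul_iff_right (by norm_num) (by norm_num)).1 h5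

theorem TBL (hPRD : PRD_stmt) (hGEO : GEO_stmt) : TBL_stmt := by
  intro H θ hH h0 h1
  have hHr : (1 : ℝ) ≤ H := by exact_mod_cast hH
  have hH0 : (0 : ℝ) < H := by linarith
  have hp0 : 0 ≤ θ / (H : ℝ) ^ 2 := by positivity
  have hp1 : θ / (H : ℝ) ^ 2 ≤ 1 := by
    rw [div_le_one (by positivity)]
    nlinarith
  have e1 := TBL_e1 hPRD hGEO H hH
  have c2 := TBL_c2 hPRD hGEO H hH
  have c3 := TBL_c3 hPRD hGEO H hH
  obtain ⟨m0, -, -, -⟩ := TBL_m hGEO H hH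
  have one : Ex H (fun _ : Fin 5 → ℕ => (1 : ℝ≥0∞)) = 1 := by
    have h2 := TBL_ex_mon hPRD H (fun _ => 0)
    have h3 : TBL_mon (fun _ => 0) = fun _ => 1 := by
      funext x
      unfold TBL_mon
      simp
    rw [h3, m0] at h2
    rw [h2]
    simp
  show ENNReal.ofReal (1 - 4 * θ + 17 * θ ^ 2 - 763 * θ ^ 3) ≤
    Ex H (fun x : Fin 5 → ℕ => ENNReal.ofReal ((1 - θ / (H : ℝ) ^ 2) ^ TBL_n x))
  generalize hp : θ / (H : ℝ) ^ 2 = p at hp0 hp1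
  have hθ : θ = p * (H : ℝ) ^ 2 := by
    rw [← hp]
    field_simp
  have key : Ex H (fun x : Fin 5 → ℕ => (1 : ℝ≥0∞) +
      ENNReal.ofReal (p ^ 2) * ((TBL_n x).choose 2 : ℝ≥0∞)) ≤
      Ex H (fun x : Fin 5 → ℕ => (ENNReal.ofReal ((1 - p) ^ TBL_n x) +
        ENNReal.ofReal p * (TBL_n x : ℝ≥0∞)) +
        ENNReal.ofReal (p ^ 3) * ((TBL_n x).choose 3 : ℝ≥0∞)) := by
    apply TBL_ex_mono
    intro x
    have h2 := TBL_ineq p hp0 hp1 (TBL_n x)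
    have h3 : (0 : ℝ) ≤ (1 - p) ^ TBL_n x := pow_nonneg (by linarith) _
    rw [← ENNReal.ofReal_one, ← ENNReal.ofReal_natCast, ← ENNReal.ofReal_natCast,
      ← ENNReal.ofReal_natCast, ← ENNReal.ofReal_mul (by positivity),
      ← ENNReal.ofReal_mul (by positivity), ← ENNReal.ofReal_mul (by positivity),
      ← ENNReal.ofReal_add (by positivity) (by positivity),
      ← ENNReal.ofReal_add h3 (by positivity),
      ← ENNReal.ofReal_add (by positivity) (by positivity)]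
    apply ENNReal.ofReal_le_ofReal
    linarith
  rw [TBL_ex_add, TBL_ex_add, TBL_ex_add, one, TBL_ex_mul, TBL_ex_mul, TBL_ex_mul, e1] at key
  have hHe : (H : ℝ≥0∞) = ENNReal.ofReal (H : ℝ) := (ENNReal.ofReal_natCast H).symm
  have k1 : ENNReal.ofReal (1 + 17 * θ ^ 2) ≤
      1 + ENNReal.ofReal (p ^ 2) * Ex H (fun x => ((TBL_n x).choose 2 : ℝ≥0∞)) := by
    calc ENNReal.ofReal (1 + 17 * θ ^ 2) =
        1 + ENNReal.ofReal (p ^ 2) * (17 * (H : ℝ≥0∞) ^ 4) := by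
          rw [hHe, ← ENNReal.ofReal_pow (by positivity), ← ENNReal.ofReal_one,
            show (17 : ℝ≥0∞) = ENNReal.ofReal 17 by simp, ← ENNReal.ofReal_mul (by positivity),
            ← ENNReal.ofReal_mul (by positivity), ← ENNReal.ofReal_add (by positivity)
              (by positivity), hθ]
          congr 1
          ring
      _ ≤ _ := add_le_add le_rfl (mul_le_mul_right c2 _)
  have k2 : ENNReal.ofReal p * (4 * (H : ℝ≥0∞) ^ 2) +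
      ENNReal.ofReal (p ^ 3) * Ex H (fun x => ((TBL_n x).choose 3 : ℝ≥0∞)) ≤
      ENNReal.ofReal (4 * θ + 763 * θ ^ 3) := by
    calc ENNReal.ofReal p * (4 * (H : ℝ≥0∞) ^ 2) +
      ENNReal.ofReal (p ^ 3) * Ex H (fun x => ((TBL_n x).choose 3 : ℝ≥0∞)) ≤
      ENNReal.ofReal p * (4 * (H : ℝ≥0∞) ^ 2) +
      ENNReal.ofReal (p ^ 3) * (763 * (H : ℝ≥0∞) ^ 6) :=
        add_le_add le_rfl (mul_le_mul_right c3 _)
      _ = ENNReal.ofReal (4 * θ + 763 * θ ^ 3) := by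
          rw [hHe, ← ENNReal.ofReal_pow (by positivity), ← ENNReal.ofReal_pow (by positivity),
            show (763 : ℝ≥0∞) = ENNReal.ofReal 763 by simp,
            show (4 : ℝ≥0∞) = ENNReal.ofReal 4 by simp,
            ← ENNReal.ofReal_mul (by positivity), ← ENNReal.ofReal_mul (by positivity),
            ← ENNReal.ofReal_mul (by positivity), ← ENNReal.ofReal_mul (by positivity),
            ← ENNReal.ofReal_add (by positivity) (by positivity), hθ]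
          congr 1
          ring
  have k3 : ENNReal.ofReal (1 + 17 * θ ^ 2) ≤
      Ex H (fun x : Fin 5 → ℕ => ENNReal.ofReal ((1 - p) ^ TBL_n x)) +
        ENNReal.ofReal (4 * θ + 763 * θ ^ 3) := by
    refine (k1.trans key).trans ?_
    rw [add_assoc]
    exact add_le_add le_rfl k2
  have k4 : ENNReal.ofReal (1 - 4 * θ + 17 * θ ^ 2 - 763 * θ ^ 3) =
      ENNReal.ofReal (1 + 17 * θ ^ 2) - ENNReal.ofReal (4 * θ + 763 * θ ^ 3) := by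
    rw [← ENNReal.ofReal_sub _ (by positivity)]
    congr 1
    ring
  rw [k4, tsub_le_iff_right]
  exact k3

end

end Pool.Agent.DSW
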